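import Pool.Agent.U827.SM.SemiMain

/-!
Divisors on varieties which are dominated by a variety with commuting dominant rational self-maps
(invertible or not) which preserve the class of a nef divisor: the numerical dimension is bounded by
the growth rank.
-/

set_option autoImplicit false

open FF Pool.Agent.W602.GT Pool.Agent.Y172 Pool.Agent.R887 Pool.Agent.N110 Pool.Agent.N110.DV

/-- Let `X'` be a normal projective variety of dimension `n ≥ 1` with generic point `y'` (for
instance with klt singularities and torsion canonical class), and `L'` a nef `ℚ`-divisor on `X'`. Let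
`ℕ ^ r` act on `X'` by dominant rational self-maps `f_a` (commuting dominant rational self-maps
`f_1, ..., f_r`, invertible or not), which contract no prime divisors, given by the endomorphisms
`φ a = f_a^*` of the function field, and suppose that the divisors `L' - f_a^* L'` are
pseudo-effective (for instance that the maps preserve the numerical class of `L'`).

Let `X` be a normal projective variety and `L` a `ℚ`-divisor on `X`, and let `X' ⇢ X` be a dominant
generically finite rational map, given by the homomorphism `π` of the function fields, which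
contracts no prime divisors, such that `L' - π^* L` is pseudo-effective (for instance `X = X'` and
`L = L'`, or a finite quotient map and `L' = π^* L`). The map has nothing to do with the maps `f_a`.

For `u` in `ℤ ^ r` with positive part `a` and negative part `b` the degree `D(u)` of the
correspondence `f_a ∘ f_b⁻¹` is `f_a^* H · (f_b^* H) ^ (n - 1) / deg f_b`.

(1) If the numerical dimension of `L` is at least `ν` then `D` grows subexponentially along a linear
subspace `W` of `ℝ ^ r` of dimension at least `r + ν - n`.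

(2) Let `s ≥ 1` be at most the growth rank: `D` grows subexponentially only along linear subspaces of
`ℝ ^ r` of codimension at least `s`. For instance `s = r` if `max (D(u), D(-u)) ≥ c exp (δ |u|)` for
some `c, δ > 0`. Then `s ≤ n`, the numerical dimension of `L` is at most `n - s`, and so is the
Iitaka dimension. If the Iitaka dimension is at least `n - s` then the Iitaka dimension and the
numerical dimension of `L` are equal. If `s = n`, `L` is nef, and `L` is effective up to
`ℚ`-linear equivalence or the irregularity of `X` is zero, then `L` is torsion: `m L` is the divisor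
of a rational function for some `m ≥ 1`. -/
theorem Pool.Agent.Results.MP_cda8c3_ag.CommutingSelfMapsNefClass.result
    {K K' : Type} [Field K] [Algebra ℂ K] [Field K'] [Algebra ℂ K'] {N N' n : ℕ}
    {y : Fin (N + 1) → K} {y' : Fin (N' + 1) → K'} (hy : NormalModel y) (hy' : NormalModel y')
    (hn : Algebra.trdeg ℂ K = n) (hn' : Algebra.trdeg ℂ K' = n) (hn0 : 0 < n)
    {L' : Place ℂ K' → ℚ} (hL' : {P | IsPrimeDivisor y' P ∧ L' P ≠ 0}.Finite)
    (hnef' : NefD y' n L') {r : ℕ} {φ : (Fin r → ℕ) → (K' →ₐ[ℂ] K')}
    (hφ : ∀ u v, φ (u + v) = φ u * φ v) (hcl : ∀ v, SelfClassLe (φ v) y' L')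
    {L : Place ℂ K → ℚ} (hL : {P | IsPrimeDivisor y P ∧ L P ≠ 0}.Finite) {π : K →ₐ[ℂ] K'}
    (hπ : ImgClassLe π y L y' L') :
    (∀ ν ≤ n, ¬ NuLt y n L ν → ∃ W : Submodule ℝ (Fin r → ℝ),
      r + ν ≤ Module.finrank ℝ W + n ∧ ∀ w ∈ W, SE.CorrSubexp φ y' n w) ∧
    ∀ s : ℕ, 0 < s → (SE.CorrRankGe φ y' n s ∨ (s = r ∧ SE.CorrExpGrowth φ y' n)) →
      s ≤ n ∧ NuLt y n L (n - s + 1) ∧ ¬ IitakaGe y L (n - s + 1) ∧
        (IitakaGe y L (n - s) → AbundantD y n L) ∧
        (s = n → NefD y n L → IitakaGe y L 0 ∨ IrregularityZero y → ∃ m : ℕ, 1 ≤ m ∧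
          ∃ g : K, g ≠ 0 ∧ ∀ P, IsPrimeDivisor y P → (P.ord g : ℚ) = m * L P) := by
  refine ⟨fun ν hν hnum => ?_, fun s hs hrank => ?_⟩
  · exact Pool.Agent.U827.SM.semi_spaceD hy' hn' hn0 hL' hnef' hφ hcl hν fun h =>
      hnum (nuLt_img hy hy' hn hn' hπ hν h)
  have hrank' : SE.CorrRankGe φ y' n s := by
    rcases hrank with h | ⟨rfl, h⟩
    · exact h
    · exact SE.corrRank_of_exp h
  obtain ⟨h1, h2'⟩ := Pool.Agent.U827.SM.semi_mainD hy' hn' hn0 hL' hnef' hs hφ hcl hrank'
  have h2 := nuLt_img hy hy' hn hn' hπ (by omega : n - s + 1 ≤ n) h2'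
  refine ⟨h1, h2, iitaka_lt hy hn (by omega) h2, fun h => ⟨n - s, h, h2⟩, ?_⟩
  intro h3 hnef hq
  rw [show n - s + 1 = 1 by omega] at h2
  obtain ⟨m, hm, g, hg0, hg⟩ : ∃ m : ℕ, 1 ≤ m ∧ ∃ g : K, g ≠ 0 ∧
      ∀ P, IsPrimeDivisor y P → (P.ord g : ℚ) = -(m * L P) := by
    rcases hq with h | h
    · exact Pool.Agent.U827.SM.trivial_of_iitaka hy hn hn0 hnef h2 h
    · exact trivialD hy hn hn0 hL h hnef h2
  refine ⟨m, hm, g⁻¹, inv_ne_zero hg0, fun P hP => ?_⟩
  have h4 := hg P hP
  rw [P.ord_inv]
  push_cast
  linarith
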