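import Pool.Agent.U976.TBd.GA6

/-!
# Nef line bundles on Kummer covers of toric bundles with `H^1(O) = 0` are semiample

Let `X = V / Γ` be the quotient of a complex torus of any dimension by any finite group; the torus need
not be algebraic, and the group may contain reflections, so that `K_X` may be negative. Let `Y → X` be a
toric bundle: all fibres are the same smooth complete toric variety, of any dimension, and the twists
`c i` are arbitrary line bundles on `X`. Let `F_j` be any section of the `m_j`-th power of the line
bundle `O_Y(e_j; A_j)` on `Y`, and let `Y'` be the Kummer cover of `Y` with the equations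
`y_j ^ m_j = F_j`. The fibres of `Y' → X` vary and may degenerate, and can be of any Kodaira type. (For
suitable `e_j` and `m_j` the canonical class of `Y'` is torsion, and `Y'` is smooth or has klt
singularities for suitable `F_j`.)

The theorem: if `H^1(X, O_X) = 0` then the pullback `M` to `Y'` of any line bundle `O_Y(D; L)` on `Y` is
nef if and only if it is semiample. The hypothesis holds if `H^1(Y', O_{Y'}) = 0`, as the pullback
`H^1(X, O_X) → H^1(Y', O_{Y'})` is injective. No assumption on `K_{Y'}` is needed.

The proof. The restrictions of `M` to the invariant sections of `Y → X` are nef line bundles on `X`,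
so they are semiample, and the monomial sections given by them generate a power of `M`. If a power of
`M` is generated by sections on `Y'` then the norms of the monomials of these sections generate a power
of `O_Y(D; L)`.

`IsTorusQuotient` and `LineBundle` are defined in `Pool.Agent.W594.SYZ.Defs2`; `IsChernForm` and
`IsNefForm` in `Pool.Agent.W594.SYZ.TQDefs`; `HOneZero` in `Pool.Agent.TH735.AQ.Defs`; `IsSmoothFan`,
`LinEquiv` and `IsSection` in `Pool.Agent.Q47.TB.Defs`; `Nef` in `Pool.Agent.U976.TBd.Defs`;
`IsCoverSection` and `CoverSemiample` in `Pool.Agent.U976.TBd.K1`.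
-/

set_option autoImplicit false

namespace Pool.Agent.Results.MP_cda8c3_ag.KummerCovers

open Pool.Agent.W594.SYZ2 Pool.Agent.TH735.AQ Q47.TB Pool.Agent.U976.TBd MvPolynomial

/-- Let `Y` be the toric bundle with the fan `u`, `S` and the twists `c i` over the torus quotient
`X = V / Γ`, let `F j` be any section of the `m j`-th power of `O_Y(e j; A j)`, and let `Y'` be the
Kummer cover `y_j ^ m_j = F_j` of `Y`. If `H^1(X, O_X) = 0` then the pullback of any line bundle
`O_Y(D; L)` to `Y'`, where `H` is the Chern form of `L`, is nef if and only if it is semiample. -/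
theorem result {V : Type*} [NormedAddCommGroup V] [NormedSpace ℂ V] [FiniteDimensional ℂ V]
    (Γ : Subgroup (V ≃ᵃ[ℂ] V)) (hΓ : IsTorusQuotient Γ) (h01 : HOneZero Γ)
    {ι : Type*} [Fintype ι] {n : ℕ} (u : ι → Fin n → ℤ) (S : Set (Set ι)) (hS : IsSmoothFan u S)
    (c : ι → LineBundle Γ) (Hc : ι → V → V → ℂ) (hc : ∀ i, IsChernForm (c i) (Hc i))
    {k : ℕ} (m : Fin k → ℕ) (hm : ∀ j, 1 ≤ m j) (e : Fin k → ι → ℤ) (A : Fin k → LineBundle Γ)
    (F : Fin k → V → MvPolynomial ι ℂ)
    (hF : ∀ j, IsSection u c (fun i => m j * e j i) (fun γ v => (A j).e γ v ^ m j) (F j))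
    (D : ι → ℤ) (L : LineBundle Γ) (H : V → V → ℂ) (hL : IsChernForm L H) :
    Nef u S Hc D H ↔ CoverSemiample u S c e A m F D L := by
  have _ := hS
  rw [cover_semiample_iff hF hm]
  exact ⟨semiample_of_hone hΓ h01 hc hL, nef_of_semiample hΓ hc hL⟩

end Pool.Agent.Results.MP_cda8c3_ag.KummerCovers
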