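import Pool.Agent.U660.MD.Nef
import Pool.Agent.U189.ND.Defs

/-!
# Nef divisors are semiample, with one multiple, on all small modifications of the toroidal models of
# covers branched along normal crossing hypersurfaces

**The varieties.** Let `F k`, `k = 0, ..., n`, be forms of degrees `d k` in `n + 1` variables whose
zero sets in the projective `n`-space are smooth hypersurfaces with normal crossings, `Y` a normal
abelian cover of the projective space which is branched only along these hypersurfaces, and `X` the
toroidal modification of `Y` which is given by `fan` (see `Pool/Agent/U189/ND/Defs.lean`, where the
definitions `NormalCrossings`, `Admissible`, `InCone`, `IsFan`, `affine`, `minimalOrder`,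
`multiplicities` and `coefficient` are explained). `D 1, ..., D p` are toroidal `ℚ`-Cartier divisors on
`X`; the coefficients of their pullbacks at the prime divisors `P` over `X` are the `δ i P`.

If `n ≥ 3`, if every generator of a ray has at most `n - 1` positive coordinates (only strata of
positive dimension, which are irreducible, are modified) and if the `D i` generate the toroidal
divisors of a `ℚ`-factorial `X`, then all divisors on `X` are integral combinations of the `D i` up to
`ℚ`-linear equivalence (Lefschetz; this remark is not used and not proved here).

**Torsion canonical class.** `K_Y` is torsion if and only if `∑ k, d k * (1 - 1 / e k) = n + 1`, where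
`e k` is the ramification index over `F k = 0`; then `K_X` is torsion for the crepant toroidal (partial)
resolutions `X` of `Y`: those with `∑ k, v k / e k = 1` for the primitive generators `v` of all rays. They
are klt and `H^1(X, O_X) = 0`. For instance let `Y` be the double cover of the projective `n`-space which
is branched along a hypersurface of degree `2 (n + 1)` with at most `n + 1` components, which are smooth
with normal crossings (for `n = 3`: the double octic solids), and `X` a crepant toroidal partial
resolution of the singularities of `Y` along the intersections of the components. The varieties `X'`
which are isomorphic to `X` in codimension one (the flops of `X`) are also klt, with torsion canonical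
class and `H^1(X', O_X') = 0`; they are in general not toroidal modifications of `Y`.

**The theorem.** There is ONE number `k ≥ 1` such that for all the small modifications `X'` of `X` (on
which the strict transforms of the `D i` are `ℚ`-Cartier and some combination of them is ample; `X' = X`
is allowed if some combination of the `D i` is ample on `X`) and for all integral combinations
`L = ∑ i, ν i * D i` which are nef on `X'` the linear system `|k L|` has no base points on `X'`. The
canonical class can be arbitrary. For big `L` and torsion canonical class this follows from the
base point free theorem (without the uniformity in `X'`); it is new for the `L` which are not big.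

**Proof.** New is the finite generation of the Cox ring of `X` (`Pool/Agent/U189/NF`). The deduction
from the finite generation is the library of `helper660` (`Pool/Agent/U660/MD`), which was used in
`MP_5ee2d0_ag.UniformFreeness` for another class: the covers of products of projective spaces with one
smooth hypersurface in each factor. Here several hypersurfaces with normal crossings are in the
same projective space.
-/

set_option autoImplicit false

open FF MvPolynomial Pool.Agent.W602.GT

namespace Pool.Agent.Results.MP_cda8c3_ag.NormalCrossingModels

open Pool.Agent.Results.MP_89a3f8_ag.TerminationOfFlips
  (IsSection BasePointFree Semiample IsSmallModification)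
open Pool.Agent.U660.MD Pool.Agent.U189.ND

/-- **Nef integral combinations on small modifications have a base point free multiple, and the multiple
is the same for all of them.** Let `K` be the function field of an abelian cover `Y` of the projective
`n`-space which is branched along `n + 1` hypersurfaces `F k = 0` with normal crossings, `X` the toroidal
modification of `Y` which is given by `fan`, and `D i`, `i < p`, toroidal `ℚ`-Cartier divisors on `X` with
the degrees `β i` and the coefficients `c i`. There is `k ≥ 1` such that for every small modification of
`X` (with the coefficients `δ'`) and every integral combination `ν` which is nef on it the combination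
`k ν` is base point free on it. -/
theorem result (n R p : ℕ) (hn : 1 ≤ n) (d : Fin (n + 1) → ℕ) (hd : ∀ k, 1 ≤ d k)
    (F : Fin (n + 1) → MvPolynomial (Fin (n + 1)) ℂ) (hF : ∀ k, (F k).IsHomogeneous (d k))
    (hs : NormalCrossings F) (m : Fin R → ℕ) (hm : ∀ j, 1 ≤ m j) (a : Fin R → Fin (n + 1) → ℕ)
    (hdiv : ∀ j, m j ∣ ∑ k, a j k * d k)
    (K : Type) [Field K] [Algebra ℂ K] (x : Fin (n + 1) → K) (hx0 : x 0 ≠ 0)
    (hbas : IsTranscendenceBasis ℂ (affine x)) (z : Fin R → K)
    (hz : ∀ j, z j ^ m j = ∏ k, (aeval x (F k) / x 0 ^ d k) ^ a j k)
    (hgen : IntermediateField.adjoin ℂ (Set.range (affine x) ∪ Set.range z) = ⊤)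
    (fan : Finset (Finset (Fin (n + 1) → ℕ))) (hfan : IsFan m a fan)
    (c : Fin p → (Fin (n + 1) → ℕ) → ℚ) (hc0 : ∀ i, c i 0 = 0) (β : Fin p → ℤ)
    (u : Finset (Fin (n + 1) → ℕ) → Fin p → Fin (n + 1) → ℚ)
    (hlin : ∀ σ ∈ fan, ∀ i v, Admissible m a v → InCone σ v → - c i v = ∑ k, u σ i k * v k)
    (δ : Fin p → Place ℂ K → ℚ) (hδ : ∀ i P, δ i P = coefficient F d x (c i) (β i) P) :
    ∃ k : ℕ, 1 ≤ k ∧ ∀ δ' : Fin p → Place ℂ K → ℚ, IsSmallModification n δ δ' →
      ∀ ν : Fin p → ℤ, IsNef n δ' (fun i => (ν i : ℝ)) → BasePointFree n δ' (k • ν) :=
  uniform_main (cox_nc n R p hn d hd F hF hs m hm a hdiv K x hx0 hbas z hz hgen fan hfan c hc0 β u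
    hlin δ hδ)

end Pool.Agent.Results.MP_cda8c3_ag.NormalCrossingModels
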