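import Pool.Agent.U201.NS.Main

/-!
# Nef and semiample sheaves on quotients `(A × F) / G`

Let `F` be a normal projective variety, `ℚ`-factorial with free class group `Cl(F) = ℤ^ρ`, with ample
class `u`; the Cox ring `R = ⨁ 𝒜 β` need not be finitely generated. Let `A = V / Λ` be an abelian
variety, and `X = (A × F) / G = (V × F) / Γ`, where the finite group `G` acts diagonally and perhaps
not freely. As `H^1(F, O_F) = 0`, the space `H^1(X, O_X)` consists of the conjugate-linear functionals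
on `V` which are invariant under the linear parts of the elements of `Γ`.

**Theorem.** All nef sheaves of rank one on `X` are semiample if and only if `H^1(X, O_X) = 0` and all
nef classes of `F` which are invariant under `G` are semiample. If `H^1(X, O_X) = 0`, a sheaf is
semiample if and only if it is nef and its restriction to `F` is semiample.

For klt `F` with `K_F ~_ℚ 0` and `G` acting freely in codimension one, `X` is klt with `K_X ~_ℚ 0`.
-/

set_option autoImplicit false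

namespace Pool.Agent.Results.MP_cda8c3_ag.SemiampleQuotients

open Pool.Agent.X324.CF Pool.Agent.U201.EC Pool.Agent.U201.NS Pool.Agent.TH735.AQ
open Pool.Agent.Y167 (Rel)

theorem result {V R : Type*} [NormedAddCommGroup V] [NormedSpace ℂ V] [FiniteDimensional ℂ V]
    [CommRing R] [IsDomain R] [Algebra ℂ R] {ρ : ℕ} {𝒜 : Cl ρ → Submodule ℂ R} [GradedAlgebra 𝒜]
    {u : Cl ρ} (F : IsProj 𝒜 u) {Γ : Grp V R} (hΓ : IsQuotient 𝒜 u Γ) {H₀ : V → V → ℂ}
    (hA : Rel (base Γ) (LinearMap.id : V →ₗ[ℂ] V) H₀) :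
    ((∀ 𝓛 : Sheaf 𝒜 Γ, IsNef (LinearMap.id : V →ₗ[ℂ] V) u 𝓛 → 𝓛.IsSemiample u) ↔
      HOneZero (base Γ) ∧ ∀ β, Inv 𝒜 Γ β → rv β ∈ NefF 𝒜 u → SemiampleF 𝒜 u β) ∧
    (HOneZero (base Γ) → ∀ 𝓛 : Sheaf 𝒜 Γ,
      (∃ x : N1 𝒜 Γ (LinearMap.id : V →ₗ[ℂ] V), IsClass (LinearMap.id : V →ₗ[ℂ] V) 𝓛 (val x)) →
      (𝓛.IsSemiample u ↔
        IsNef (LinearMap.id : V →ₗ[ℂ] V) u 𝓛 ∧ SemiampleF 𝒜 u 𝓛.deg)) :=
  ⟨semi_all F hΓ hA, fun h01 => semi_iff F hΓ hA h01⟩

end Pool.Agent.Results.MP_cda8c3_ag.SemiampleQuotients
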